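import Pool.Agent.H50.GE.Defs
import Pool.Agent.H98.FJ.Closed

/-!
# [GE4] The group with all relations is the colimit of the groups with finitely generated relations

Proof. `Inherits.quot` (`H98/FJ/Closed`) with `F = Gen K J`, the index set of the families `T` with `T j ≤ S j` finitely generated (with `⊔`), and
`N T = Subgroup.normalClosure (rels T)`. An element of `normalClosure (rels S)` is in some `N T`: the union of the `N T` is a normal
subgroup which contains `rels S` (for the relation of `p ∈ S j` take `T j = closure {p}` and `⊥` for the other letters).
-/

set_option autoImplicit false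

namespace Pool.Agent.H50.GE

open Pool.Agent.H98.FJ

section

variable {I J : Type} {K : I → Type} [∀ i, Group (K i)] {a b : J → I}

theorem colim_mem {C : (G : Type) → [Group G] → Prop} (hC : Inherits C) (S : ∀ j, Subgroup (K (a j) × K (b j)))
    (h : ∀ T : (j : J) → Subgroup (K (a j) × K (b j)), (∀ j, T j ≤ S j) → (∀ j, (T j).FG) → C (HH T)) : C (HH S) := by
  sorry

end

end Pool.Agent.H50.GE
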