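import Pool.Agent.H93.TR.Defs

/-!
# Groups acting on trees: reduction to finitely generated edge stabilisers (MP_2a547c_gt), definitions

`HH S`: the group generated by the groups `K i` (`i : I`) and letters `tt j` (`j : J`) with the relations
`x * tt j = tt j * y` for `(x, y) ∈ S j`, where `S j` is a subgroup of `K (a j) × K (b j)`. It acts on the graph `bst S` with vertices
`HH S` and the cosets of the `K i`.
-/

set_option autoImplicit false

namespace Pool.Agent.H50.GE

section

variable {I J : Type} {K : I → Type} [∀ i, Group (K i)] {a b : J → I}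

/-- the free product of the `K i` and the free group with basis `J` -/
abbrev Gen (K : I → Type) [∀ i, Group (K i)] (J : Type) : Type := Monoid.Coprod (Monoid.CoprodI K) (FreeGroup J)

/-- the generators from `K i` -/
def gi {K : I → Type} [∀ i, Group (K i)] (J : Type) (i : I) : K i →* Gen K J :=
  Monoid.Coprod.inl.comp (Monoid.CoprodI.of (M := K) (i := i))

/-- the free letters -/
def gt (K : I → Type) [∀ i, Group (K i)] {J : Type} (j : J) : Gen K J := Monoid.Coprod.inr (FreeGroup.of j)

/-- the relations -/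
def rels (S : ∀ j, Subgroup (K (a j) × K (b j))) : Set (Gen K J) :=
  {g | ∃ j, ∃ p ∈ S j, g = gi J (a j) p.1 * gt K j * (gi J (b j) p.2)⁻¹ * (gt K j)⁻¹}

/-- the group -/
abbrev HH (S : ∀ j, Subgroup (K (a j) × K (b j))) : Type := Gen K J ⧸ Subgroup.normalClosure (rels S)

/-- the maps from the `K i` -/
def io (S : ∀ j, Subgroup (K (a j) × K (b j))) (i : I) : K i →* HH S := (QuotientGroup.mk' _).comp (gi J i)

/-- the letters -/
def tt (S : ∀ j, Subgroup (K (a j) × K (b j))) (j : J) : HH S := QuotientGroup.mk (gt K j)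

variable {S : ∀ j, Subgroup (K (a j) × K (b j))}

theorem rel {j : J} {p : K (a j) × K (b j)} (hp : p ∈ S j) : io S (a j) p.1 * tt S j = tt S j * io S (b j) p.2 := by
  have h : gi J (a j) p.1 * gt K j * (gi J (b j) p.2)⁻¹ * (gt K j)⁻¹ ∈ Subgroup.normalClosure (rels S) :=
    Subgroup.subset_normalClosure ⟨j, p, hp, rfl⟩
  have h1 : (QuotientGroup.mk (gi J (a j) p.1 * gt K j * (gi J (b j) p.2)⁻¹ * (gt K j)⁻¹) : HH S) = 1 :=
    (QuotientGroup.eq_one_iff _).2 h
  have h2 : io S (a j) p.1 * tt S j * (io S (b j) p.2)⁻¹ * (tt S j)⁻¹ = 1 := h1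
  have h3 := mul_inv_eq_one.1 h2
  exact mul_inv_eq_iff_eq_mul.1 h3

private theorem gen_ind (M : Subgroup (Gen K J)) (h1 : ∀ i x, gi J i x ∈ M) (h2 : ∀ j, gt K j ∈ M) : M = ⊤ := by
  have h : ∀ g : Gen K J, g ∈ M := by
    intro g
    induction g using Monoid.Coprod.induction_on with
    | inl m =>
      induction m using Monoid.CoprodI.induction_on with
      | one => rw [map_one]; exact M.one_mem
      | of i m => exact h1 i m
      | mul x y hx hy => rw [map_mul]; exact M.mul_mem hx hy
    | inr n =>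
      induction n using FreeGroup.induction_on with
      | C1 => rw [map_one]; exact M.one_mem
      | of j => exact h2 j
      | inv_of j hj => rw [map_inv]; exact M.inv_mem hj
      | mul x y hx hy => rw [map_mul]; exact M.mul_mem hx hy
    | mul x y hx hy => exact M.mul_mem hx hy
  exact eq_top_iff.2 fun g _ => h g

/-- the generators generate -/
theorem ind (M : Subgroup (HH S)) (h1 : ∀ i x, io S i x ∈ M) (h2 : ∀ j, tt S j ∈ M) : M = ⊤ := by
  have h := gen_ind (M.comap (QuotientGroup.mk' (Subgroup.normalClosure (rels S)))) h1 h2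
  refine eq_top_iff.2 fun g _ => ?_
  obtain ⟨g, rfl⟩ := QuotientGroup.mk_surjective g
  have : g ∈ M.comap (QuotientGroup.mk' (Subgroup.normalClosure (rels S))) := by
    rw [h]
    exact Subgroup.mem_top g
  exact this

theorem hom_ext {P : Type} [Group P] {f g : HH S →* P} (h1 : ∀ i x, f (io S i x) = g (io S i x))
    (h2 : ∀ j, f (tt S j) = g (tt S j)) : f = g := by
  have h := ind (f.eqLocus g) h1 h2
  refine MonoidHom.ext fun x => ?_
  have : x ∈ f.eqLocus g := by
    rw [h]
    exact Subgroup.mem_top x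
  exact this

/-- the map on generators -/
def glift {P : Type} [Group P] (f : ∀ i, K i →* P) (s : J → P) : Gen K J →* P :=
  Monoid.Coprod.lift (Monoid.CoprodI.lift f) (FreeGroup.lift s)

theorem glift_gi {P : Type} [Group P] (f : ∀ i, K i →* P) (s : J → P) (i : I) (x : K i) :
    glift f s (gi J i x) = f i x := by
  show Monoid.Coprod.lift (Monoid.CoprodI.lift f) (FreeGroup.lift s) (Monoid.Coprod.inl (Monoid.CoprodI.of x)) = f i x
  rw [Monoid.Coprod.lift_apply_inl, Monoid.CoprodI.lift_of]

theorem glift_gt {P : Type} [Group P] (f : ∀ i, K i →* P) (s : J → P) (j : J) :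
    glift f s (gt K j) = s j := by
  show Monoid.Coprod.lift (Monoid.CoprodI.lift f) (FreeGroup.lift s) (Monoid.Coprod.inr (FreeGroup.of j)) = s j
  rw [Monoid.Coprod.lift_apply_inr, FreeGroup.lift_apply_of]

/-- the universal property -/
def lift {P : Type} [Group P] (f : ∀ i, K i →* P) (s : J → P)
    (h : ∀ j, ∀ p ∈ S j, f (a j) p.1 * s j = s j * f (b j) p.2) : HH S →* P :=
  QuotientGroup.lift _ (glift f s) (by
    have hle : Subgroup.normalClosure (rels S) ≤ (glift f s).ker := by
      refine Subgroup.normalClosure_le_normal ?_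
      rintro _ ⟨j, p, hp, rfl⟩
      show glift f s _ = 1
      rw [map_mul, map_mul, map_mul, map_inv, map_inv, glift_gi, glift_gi, glift_gt, h j p hp, mul_assoc (s j),
        mul_inv_cancel, mul_one, mul_inv_cancel]
    intro x hx
    exact hle hx)

theorem lift_io {P : Type} [Group P] (f : ∀ i, K i →* P) (s : J → P)
    (h : ∀ j, ∀ p ∈ S j, f (a j) p.1 * s j = s j * f (b j) p.2) (i : I) (x : K i) : lift f s h (io S i x) = f i x :=
  glift_gi f s i x

theorem lift_tt {P : Type} [Group P] (f : ∀ i, K i →* P) (s : J → P)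
    (h : ∀ j, ∀ p ∈ S j, f (a j) p.1 * s j = s j * f (b j) p.2) (j : J) : lift f s h (tt S j) = s j :=
  glift_gt f s j

/-- the vertices of the tree: the elements of the group and the cosets of the `K i` -/
abbrev Vt (S : ∀ j, Subgroup (K (a j) × K (b j))) : Type := HH S ⊕ (Σ i, HH S ⧸ (io S i).range)

/-- the coset of `h` as a vertex -/
def vx (S : ∀ j, Subgroup (K (a j) × K (b j))) (i : I) (h : HH S) : Vt S := Sum.inr ⟨i, QuotientGroup.mk h⟩

/-- the group acts by left multiplication -/
instance instVt : MulAction (HH S) (Vt S) where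
  smul g v := Sum.map (fun h => g * h) (fun x => ⟨x.1, g • x.2⟩) v
  one_smul v := by
    rcases v with h | ⟨i, x⟩
    · exact congrArg Sum.inl (one_mul h)
    · show Sum.inr (⟨i, (1 : HH S) • x⟩ : Σ i, HH S ⧸ (io S i).range) = _
      rw [one_smul]
  mul_smul g g' v := by
    rcases v with h | ⟨i, x⟩
    · exact congrArg Sum.inl (mul_assoc g g' h)
    · show Sum.inr (⟨i, (g * g') • x⟩ : Σ i, HH S ⧸ (io S i).range) = Sum.inr ⟨i, g • g' • x⟩
      rw [mul_smul]

theorem smul_inl (g h : HH S) : g • (Sum.inl h : Vt S) = Sum.inl (g * h) := rfl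

theorem smul_vx (g h : HH S) (i : I) : g • vx S i h = vx S i (g * h) := rfl

theorem vx_eq {i : I} {g h : HH S} : vx S i g = vx S i h ↔ ∃ x, g * io S i x = h := by
  constructor
  · intro e
    have h1 : (⟨i, QuotientGroup.mk g⟩ : Σ i, HH S ⧸ (io S i).range) = ⟨i, QuotientGroup.mk h⟩ := Sum.inr_injective e
    have h2 := eq_of_heq (Sigma.mk.inj_iff.1 h1).2
    obtain ⟨x, hx⟩ := QuotientGroup.eq.1 h2
    exact ⟨x, by rw [hx, mul_inv_cancel_left]⟩
  · rintro ⟨x, hx⟩
    refine congrArg (fun z => (Sum.inr (⟨i, z⟩ : Σ i, HH S ⧸ (io S i).range) : Vt S)) (QuotientGroup.eq.2 ⟨x, ?_⟩)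
    rw [← hx, inv_mul_cancel_left]

/-- the oriented edges -/
inductive Rl (S : ∀ j, Subgroup (K (a j) × K (b j))) : Vt S → Vt S → Prop
  | spoke (i : I) (h : HH S) : Rl S (Sum.inl h) (vx S i h)
  | edge (j : J) (h : HH S) : Rl S (vx S (a j) h) (vx S (b j) (h * tt S j))

/-- the graph -/
def bst (S : ∀ j, Subgroup (K (a j) × K (b j))) : SimpleGraph (Vt S) := SimpleGraph.fromRel (Rl S)

/-- the elements of `K (a j)` (in the group) which occur in the relations of `j` -/
def DD (S : ∀ j, Subgroup (K (a j) × K (b j))) (j : J) : Subgroup (HH S) :=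
  ((S j).map (MonoidHom.fst (K (a j)) (K (b j)))).map (io S (a j))

end

/-- Representatives `r i` of the orbits of vertices and `(r (a j), γ j • r (b j))` of the orbits of edges, with an invariant
orientation. -/
structure Rep {G V : Type} [Group G] [MulAction G V] (X : SimpleGraph V) {I J : Type} (r : I → V) (a b : J → I)
    (γ : J → G) : Prop where
  surj : ∀ v, ∃ (g : G) (i : I), g • r i = v
  inj : ∀ (i i' : I) (g : G), g • r i = r i' → i = i'
  adj : ∀ j, X.Adj (r (a j)) (γ j • r (b j))
  edge : ∀ v w, X.Adj v w → ∃ (g : G) (j : J), (g • r (a j) = v ∧ g • γ j • r (b j) = w) ∨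
    (g • r (a j) = w ∧ g • γ j • r (b j) = v)
  uniq : ∀ (j j' : J) (g : G), g • r (a j) = r (a j') → g • γ j • r (b j) = γ j' • r (b j') → j = j'
  noinv : ∀ (j j' : J) (g : G), g • r (a j) = γ j' • r (b j') → g • γ j • r (b j) = r (a j') → False

/-- the relations of the edge `j` in the stabilisers -/
def Sg {G V : Type} [Group G] [MulAction G V] {I J : Type} (r : I → V) (a b : J → I) (γ : J → G) (j : J) :
    Subgroup (MulAction.stabilizer G (r (a j)) × MulAction.stabilizer G (r (b j))) where
  carrier := {p | (p.1 : G) * γ j = γ j * p.2}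
  one_mem' := by
    show (1 : G) * γ j = γ j * 1
    rw [one_mul, mul_one]
  mul_mem' := by
    intro p q hp hq
    show ((p.1 : G) * q.1) * γ j = γ j * (p.2 * q.2)
    have hp' : (p.1 : G) * γ j = γ j * p.2 := hp
    have hq' : (q.1 : G) * γ j = γ j * q.2 := hq
    rw [mul_assoc, hq', ← mul_assoc, hp', mul_assoc]
  inv_mem' := by
    intro p hp
    show (p.1 : G)⁻¹ * γ j = γ j * (p.2 : G)⁻¹
    have hp' : (p.1 : G) * γ j = γ j * p.2 := hp
    rw [eq_mul_inv_iff_mul_eq, mul_assoc, ← hp', inv_mul_cancel_left]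

/-- the group of the full system of relations -/
abbrev HG {G V : Type} [Group G] [MulAction G V] {I J : Type} (r : I → V) (a b : J → I) (γ : J → G) : Type :=
  HH (K := fun i => MulAction.stabilizer G (r i)) (Sg r a b γ)

end Pool.Agent.H50.GE
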