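import Pool.Agent.H50.GE.Defs

/-!
# [GE1] Potentials on the graph

Proof. `HH S` acts on the additive group `M = Ω → ℤ` by `(g f) ω = f (g⁻¹ ω)`. There is a derivation `δ : HH S → M`, `δ (g h) = δ g + g (δ h)`, with
`δ (io i x) = m i - x (m i)` and `δ (tt j) = n j + m (a j) - tt j (m (b j))`: by the universal property (`lift`) for homomorphisms to the
semidirect product of `Multiplicative M` with `HH S` (or to the permutations `f ↦ g f + δ g` of `M`), since for `(x, y) ∈ S j`: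
`δ (x tt j) = m (a j) - x m (a j) + x (n j + m (a j) - tt j m (b j)) = m (a j) + n j - x (tt j m (b j))` (`hn`) and
`δ (tt j y) = n j + m (a j) - tt j m (b j) + tt j (m (b j) - y m (b j))` are equal (`x tt j = tt j y`, `rel`). Let `p (inl h) = δ h`,
`p (vx S i h) = δ h + h (m i)` (well-defined: `δ (h x) + h x (m i) = δ h + h (m i)`).
-/

set_option autoImplicit false

namespace Pool.Agent.H50.GE

section

variable {I J : Type} {K : I → Type} [∀ i, Group (K i)] {a b : J → I}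

theorem pot (S : ∀ j, Subgroup (K (a j) × K (b j))) (Ω : Type) [MulAction (HH S) Ω] (m : I → Ω → ℤ) (n : J → Ω → ℤ)
    (hn : ∀ j, ∀ g ∈ DD S j, ∀ ω, n j (g⁻¹ • ω) = n j ω) :
    ∃ p : Vt S → Ω → ℤ, (∀ i h ω, p (vx S i h) ω = p (Sum.inl h) ω + m i (h⁻¹ • ω)) ∧
      ∀ j h ω, p (vx S (b j) (h * tt S j)) ω = p (vx S (a j) h) ω + n j (h⁻¹ • ω) := by
  sorry

open Classical in
theorem pot_edge (S : ∀ j, Subgroup (K (a j) × K (b j))) (j₀ : J) :
    ∃ p : Vt S → (HH S ⧸ DD S j₀) → ℤ, (∀ i h, p (vx S i h) = p (Sum.inl h)) ∧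
      (∀ j h, j ≠ j₀ → p (vx S (b j) (h * tt S j)) = p (vx S (a j) h)) ∧
      ∀ h ω, p (vx S (b j₀) (h * tt S j₀)) ω = p (vx S (a j₀) h) ω + if ω = QuotientGroup.mk h then 1 else 0 := by
  sorry

open Classical in
theorem pot_spoke (S : ∀ j, Subgroup (K (a j) × K (b j))) (i₀ : I) :
    ∃ p : Vt S → HH S → ℤ, (∀ i h, i ≠ i₀ → p (vx S i h) = p (Sum.inl h)) ∧
      (∀ h ω, p (vx S i₀ h) ω = p (Sum.inl h) ω + if ω = h then 1 else 0) ∧
      ∀ j h, p (vx S (b j) (h * tt S j)) = p (vx S (a j) h) := by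
  sorry

end

end Pool.Agent.H50.GE
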