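import Pool.Agent.H50.GE.Defs
import Pool.Agent.H93.TR.Inv

/-!
# [GE6] Representatives

Proof. `exists_col`: the potential `h` of `exists_noInv` (`H93/TR/Inv`) with values in `Multiplicative (ZMod 2)`; `c v = true` iff `h v = 1`.
`exists_rep`: `I` = the orbits of vertices (for instance `Quotient` or `Set.range` of a choice function), `r` = representatives; `J` = the orbits
of the pairs `(x, y)` with `X.Adj x y`, `c x = true` (finite by `hF`: every orbit contains an element of `F` or its reverse); for a
representative `(x, y)` translate such that `x = r i` for `i = a j`, and choose `γ j`, `b j` with `γ j • r (b j) = y`. `noinv`: the colours of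
`r (a j)` and `γ j' • r (b j')` are different.
-/

set_option autoImplicit false

namespace Pool.Agent.H50.GE

open Pool.Agent.H93.TR

section

variable {G V : Type} [Group G] [MulAction G V] {X : SimpleGraph V}

theorem exists_col (hX : OnTree G X) : ∃ (H : Subgroup G) (c : V → Bool), H.FiniteIndex ∧ (∀ g ∈ H, ∀ v, c (g • v) = c v) ∧
    ∀ v w, X.Adj v w → c v ≠ c w := by
  sorry

theorem exists_rep (hadj : ∀ (g : G) (v w : V), X.Adj v w → X.Adj (g • v) (g • w)) (c : V → Bool)
    (hc : ∀ (g : G) (v : V), c (g • v) = c v) (hcX : ∀ v w, X.Adj v w → c v ≠ c w)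
    (hF : ∃ F : Set (V × V), F.Finite ∧ ∀ x y, X.Adj x y → ∃ (g : G) (p : V × V), p ∈ F ∧ g • p.1 = x ∧ g • p.2 = y) :
    ∃ (I J : Type) (r : I → V) (a b : J → I) (γ : J → G), Finite J ∧ Rep X r a b γ := by
  sorry

end

end Pool.Agent.H50.GE
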