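import Pool.Agent.H50.GE.Defs
import Pool.Agent.H93.TR.Pot

/-!
# [GE5] A group acting on a tree is a subgroup of the group of the full system of relations

Proof. Let `K i = stabilizer (r i)`, `π : HG r a b γ → G` the map with `π (io i x) = x`, `π (tt j) = γ j` (`lift`; so `io i` is injective, also for
smaller systems of relations). (1) Double cosets: if `x γ j y = x' γ j y'` (`x, x' ∈ K (a j)`, `y, y' ∈ K (b j)`) then
`io x * tt j * io y = io x' * tt j * io y'` (`(x'⁻¹ x, y' y⁻¹) ∈ Sg j`, `rel`). (2) Choose `i v`, `g v` with `g v • r (i v) = v` (`Rep.surj`; `i v` is unique). If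
`(v, w)` is an edge with the orientation of `j` (`g • r (a j) = v`, `g • γ j • r (b j) = w`), then `a j = i v`, `b j = i w`, `(g v)⁻¹ g w = x γ j y` with
`x ∈ K (a j)`, `y ∈ K (b j)`; let `l v w = io x * tt j * io y`, `l w v = (l v w)⁻¹`. By (1), `uniq` and `noinv` this does not depend on the choices:
DEFINE for `v w` the relation `Lb v w u`: `∃ g j x y, ..` and show that `u` is unique. `π (l v w) = (g v)⁻¹ g w`. (3) `exists_potential`
(`H93/TR/Pot`): `h : V → HG` with `h w = h v * l v w`. Multiply by a constant on the left: with a base vertex `v₀` we may assume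
`π (h v) = c * g v` for a constant `c : G` (connected). (4) For `g : G`, `v : V` let `k = (g (g • v))⁻¹ * g * g v ∈ K (i v)` (`i (g • v) = i v`),
`σ v g = h (g • v) * io k * (h v)⁻¹`. For adjacent `v, w`: `σ v g = σ w g`, since `l (g • v) (g • w) * io k' = io k * l v w` (both are of the form `io x * tt j * io y`
with the same image in `G`, (1)). So `σ g = σ v g` does not depend on `v`; `σ` is a homomorphism (`σ (h • v) g * σ v h = σ v (g h)`), and
`π (σ g) = c * g * c⁻¹`, so `σ` is injective.
-/

set_option autoImplicit false

namespace Pool.Agent.H50.GE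

open Pool.Agent.H93.TR

section

variable {G V : Type} [Group G] [MulAction G V] {X : SimpleGraph V} {I J : Type} {r : I → V} {a b : J → I} {γ : J → G}

theorem io_inj (T : ∀ j, Subgroup (MulAction.stabilizer G (r (a j)) × MulAction.stabilizer G (r (b j))))
    (hT : ∀ j, T j ≤ Sg r a b γ j) (i : I) : Function.Injective (io (K := fun i => MulAction.stabilizer G (r i)) T i) := by
  sorry

theorem exists_sec (hX : OnTree G X) (hR : Rep X r a b γ) : ∃ σ : G →* HG r a b γ, Function.Injective σ := by
  sorry

end

end Pool.Agent.H50.GE
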