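import Pool.Agent.H50.GE.Pot

/-!
# [GE3] Stabilisers

Proof. `vx S i (g h) = vx S i h` iff `h⁻¹ g h ∈ (io S i).range` (`vx_eq`). Edges: spokes: `st_inl`. An element `g` which fixes the ends of
`Rl.edge j h`: compare the values of `pot_edge S j` at `ω = mk h` for the oriented edges `j, h` and `j, g h`, which have the same ends: `mk (g h) = mk h`, so
`h⁻¹ g h ∈ DD S j`, that is `h⁻¹ g h = io (a j) p.1` with `p ∈ S j`; `p` is unique (`hinj` and `rel`: `io (b j) p.2 = tt⁻¹ * io (a j) p.1 * tt`).
-/

set_option autoImplicit false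

namespace Pool.Agent.H50.GE

section

variable {I J : Type} {K : I → Type} [∀ i, Group (K i)] {a b : J → I} {S : ∀ j, Subgroup (K (a j) × K (b j))}

theorem st_inl (g h : HH S) (hg : g • (Sum.inl h : Vt S) = Sum.inl h) : g = 1 :=
  mul_eq_right.1 (Sum.inl_injective hg)

theorem st_vx (hinj : ∀ i, Function.Injective (io S i)) (i : I) (h : HH S) :
    ∃ f : MulAction.stabilizer (HH S) (vx S i h) →* K i, Function.Injective f := by
  sorry

theorem st_edge (hinj : ∀ i, Function.Injective (io S i)) (v w : Vt S) (h : (bst S).Adj v w) :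
    (∀ g : HH S, g • v = v → g • w = w → g = 1) ∨
      ∃ j, ∃ f : (MulAction.stabilizer (HH S) v ⊓ MulAction.stabilizer (HH S) w : Subgroup (HH S)) →* S j,
        Function.Injective f := by
  sorry

end

end Pool.Agent.H50.GE
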