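import Pool.Agent.H50.GE.Pot

/-!
# [GE2] The graph is a tree

Proof. Connected: `ind` for the subgroup of the `g` such that `inl g` is reachable from `inl 1` (`inl 1 - vx i 1 = vx i x - inl x`;
`inl 1 - vx (a j) 1 - vx (b j) (tt j) - inl (tt j)`; invariance under left multiplication). Acyclic: every edge is a bridge
(`SimpleGraph.isAcyclic_iff_forall_adj_isBridge`): for an edge `Rl.edge j₀ h₀` take the value `χ` of `pot_edge` at `mk h₀`: the ends of the edge have
different values, and if `v`, `w` are adjacent and `χ v ≠ χ w` then `{v, w}` are the ends of `Rl.edge j₀ h` with `mk h = mk h₀` in `HH S ⧸ DD S j₀`, which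
are the same as those of `h₀` (for `g ∈ DD S j₀` : `vx (a j₀) (h g) = vx (a j₀) h`, `vx (b j₀) (h g tt) = vx (b j₀) (h tt)` by `rel`). Spokes: `pot_spoke`.
The ends of an oriented edge are different since their values are different.
-/

set_option autoImplicit false

namespace Pool.Agent.H50.GE

open Pool.Agent.H93.TR

section

variable {I J : Type} {K : I → Type} [∀ i, Group (K i)] {a b : J → I}

theorem bst_adj (S : ∀ j, Subgroup (K (a j) × K (b j))) {v w : Vt S} : (bst S).Adj v w ↔ Rl S v w ∨ Rl S w v := by
  sorry

theorem bst_tree (S : ∀ j, Subgroup (K (a j) × K (b j))) : OnTree (HH S) (bst S) := by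
  sorry

end

end Pool.Agent.H50.GE
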